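import Pool.Agent.Helper99.WP.GoalsW

set_option autoImplicit false

namespace Pool.Agent.Helper46.WP

open Pool.Agent.Helper99.WP

section

variable {V : Type} [Fintype V] [DecidableEq V]

lemma sum_split (x : V) (G : (V → Option V) → ℝ) :
    ∑ c, G c = ∑ r : ({j // j ≠ x} → Option V), ∑ d : Option V,
      G ((Equiv.piSplitAt x (fun _ : V => Option V)).symm (d, r)) := by
  rw [← Equiv.sum_comp (Equiv.piSplitAt x (fun _ : V => Option V)).symm G, Fintype.sum_prod_type,
    Finset.sum_comm]

lemma prod_split (x : V) (w : V → Option V → ℝ) (d : Option V) (r : {j // j ≠ x} → Option V) :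
    ∏ y, w y ((Equiv.piSplitAt x (fun _ : V => Option V)).symm (d, r) y) =
      w x d * ∏ j : {j // j ≠ x}, w j (r j) := by
  rw [Fintype.prod_eq_mul_prod_subtype_ne _ x]
  congr 1
  · simp [Equiv.piSplitAt]
  · refine Finset.prod_congr rfl fun j _ => ?_
    simp [Equiv.piSplitAt, j.2]

lemma sum_change (x : V) (w w' : V → Option V → ℝ) (F : (V → Option V) → ℝ)
    (hF : ∀ c d, F (Function.update c x d) = F c) (hw : ∀ y, y ≠ x → w y = w' y)
    (hx : ∑ c, w x c = ∑ c, w' x c) :
    ∑ c : V → Option V, (∏ y, w y (c y)) * F c = ∑ c : V → Option V, (∏ y, w' y (c y)) * F c := by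
  rw [sum_split x, sum_split x (fun c => (∏ y, w' y (c y)) * F c)]
  refine Finset.sum_congr rfl fun r _ => ?_
  have h1 : ∀ d : Option V, F ((Equiv.piSplitAt x (fun _ : V => Option V)).symm (d, r)) =
      F ((Equiv.piSplitAt x (fun _ : V => Option V)).symm (none, r)) := by
    intro d
    rw [← hF ((Equiv.piSplitAt x (fun _ : V => Option V)).symm (none, r)) d]
    congr 1
    funext y
    by_cases hy : y = x
    · subst hy
      simp [Equiv.piSplitAt]
    · simp [Equiv.piSplitAt, hy]
  have h2 : ∏ j : {j // j ≠ x}, w j (r j) = ∏ j : {j // j ≠ x}, w' j (r j) :=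
    Finset.prod_congr rfl fun j _ => by rw [hw j j.2]
  simp only [prod_split, h1, h2]
  rw [← Finset.sum_mul, ← Finset.sum_mul, ← Finset.sum_mul, ← Finset.sum_mul, hx]

end

theorem CRM (hMTT : MTT_stmt) : CRM_stmt := by
  intro V _ _ w x hw hD
  classical
  set w' : V → Option V → ℝ := Function.update w x (fun c => if c = none then 1 else 0) with hw'
  have hsum' : ∀ y, ∑ c, w' y c = 1 := by
    intro y
    by_cases hy : y = x
    · subst hy
      simp [hw']
    · simp only [hw', Function.update_of_ne hy, hw y]
  -- the two sums agree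
  have h1 : DX w x = DD w' := by
    unfold DX DD
    rw [sum_change x w w' (fun c => if Acyc (Function.update c x none) then (1 : ℝ) else 0)]
    · refine Finset.sum_congr rfl fun c _ => ?_
      by_cases hc : c x = none
      · have : Function.update c x none = c := by
          rw [← hc]; exact Function.update_eq_self x c
        simp only [this]
      · have h0 : ∏ y, w' y (c y) = 0 := by
          apply Finset.prod_eq_zero (Finset.mem_univ x)
          simp [hw', hc]
        rw [h0, zero_mul, zero_mul]
    · intro c d
      simp only [Function.update_idem]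
    · intro y hy
      simp only [hw', Function.update_of_ne hy]
    · rw [hw x, hsum' x]
  have h2 : (1 - Tmat w') = (1 - Tmat w).updateRow x (Pi.single x 1) := by
    ext y z
    by_cases hy : y = x
    · subst hy
      rw [Matrix.updateRow_self]
      by_cases hz : z = y
      · subst hz
        simp [Tmat, hw']
      · have hz' : y ≠ z := fun h => hz h.symm
        simp [Tmat, hw', hz', hz]
    · rw [Matrix.updateRow_ne hy]
      simp [Tmat, hw', Function.update_of_ne hy]
  have h3 : (1 - Tmat w).adjugate x x = DD w' := by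
    rw [Matrix.adjugate_apply, ← h2, hMTT V w' hsum']
  have h4 : (1 - Tmat w).det = DD w := hMTT V w hw
  rw [h1, ← h3]
  unfold Gmat
  rw [Matrix.inv_def, Matrix.smul_apply, smul_eq_mul, h4, Ring.inverse_eq_inv', ← mul_assoc,
    mul_inv_cancel₀ hD, one_mul]

end Pool.Agent.Helper46.WP
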